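import Pool.Agent.H30.BV.Targets

/-!
Board `bv_modules`, row AD: the weight of the `n` with `d ∣ n ^ 2 - 2`.
-/

set_option autoImplicit false

open Finset Real

namespace Pool.Agent.H17.BV.AD

open Pool.Agent.H30.BV
open Pool.Agent.H30.PF (S8)

theorem totient_eq (d : ℕ) (h : Squarefree d) :
    (d.totient : ℝ) = ∏ p ∈ d.primeFactors, ((p : ℝ) - 1) := by
  have h1 := Nat.totient_mul_prod_primeFactors d
  rw [Nat.prod_primeFactors_of_squarefree h, mul_comm] at h1
  have h2 : d.totient = ∏ p ∈ d.primeFactors, (p - 1) :=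
    Nat.eq_of_mul_eq_mul_left (Nat.pos_of_ne_zero h.ne_zero) h1
  rw [h2, Nat.cast_prod]
  refine prod_congr rfl fun p hp => ?_
  have := (Nat.prime_of_mem_primeFactors hp).one_le
  push_cast [Nat.cast_sub this]
  ring

theorem SC_nonneg (X : ℝ) (d : ℕ) : 0 ≤ SC X d := by
  rw [SC]
  refine finsum_nonneg fun χ => ?_
  split_ifs
  · exact le_rfl
  · exact norm_nonneg _

theorem dvd_iff_mod {d : ℕ} (n : ℕ) :
    ((d : ℤ) ∣ (n : ℤ) ^ 2 - 2) ↔ ((d : ℤ) ∣ ((n % d : ℕ) : ℤ) ^ 2 - 2) := by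
  have h1 : (n : ℤ) ^ 2 - 2 ≡ ((n % d : ℕ) : ℤ) ^ 2 - 2 [ZMOD d] := by
    have h2 : (n : ℤ) ≡ ((n % d : ℕ) : ℤ) [ZMOD d] := by
      push_cast
      exact (Int.mod_modEq _ _).symm
    exact (h2.pow 2).sub_right 2
  exact h1.dvd_iff

theorem pf_AD (hCL : T_CL) (hRO : T_RO) : T_AD := by
  intro X d hX hdX hsq hodd
  classical
  have hd1 : 1 ≤ d := Nat.one_le_iff_ne_zero.2 hsq.ne_zero
  obtain ⟨hr, hcop⟩ := hRO d hsq hodd
  set R : Finset ℕ := (range d).filter (fun a : ℕ => (d : ℤ) ∣ (a : ℤ) ^ 2 - 2) with hR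
  set E : ℝ := SC X d + 8 * Real.log X ^ 2 with hE
  have hE0 : 0 ≤ E := add_nonneg (SC_nonneg X d) (by positivity)
  have hphi : (0 : ℝ) < d.totient := by exact_mod_cast Nat.totient_pos.2 hd1
  have hsum : ∑ n ∈ (Icc 1 (NX X)).filter (fun n : ℕ => (d : ℤ) ∣ (n : ℤ) ^ 2 - 2), wx X n =
      ∑ a ∈ R, ∑ n ∈ (Icc 1 (NX X)).filter (fun n : ℕ => (n : ZMod d) = (a : ZMod d)), wx X n := by
    rw [← sum_fiberwise_of_maps_to (s := (Icc 1 (NX X)).filter
      (fun n : ℕ => (d : ℤ) ∣ (n : ℤ) ^ 2 - 2)) (t := R) (g := fun n => n % d)]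
    · refine sum_congr rfl fun a ha => ?_
      rw [filter_filter]
      refine sum_congr ?_ fun _ _ => rfl
      ext n
      simp only [mem_filter]
      refine and_congr_right fun _ => ?_
      have ha' := mem_filter.1 ha
      have had : a < d := mem_range.1 ha'.1
      rw [ZMod.natCast_eq_natCast_iff']
      rw [Nat.mod_eq_of_lt had]
      refine ⟨fun h => h.2, fun h => ⟨?_, h⟩⟩
      rw [dvd_iff_mod, h]
      exact ha'.2
    · intro n hn
      have hn' := (mem_filter.1 hn).2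
      rw [hR, mem_filter, mem_range]
      exact ⟨Nat.mod_lt _ hd1, (dvd_iff_mod n).1 hn'⟩
  have hprod : WX X * ∏ p ∈ d.primeFactors, gg p = ∑ a ∈ R, WX X / d.totient := by
    rw [sum_const, nsmul_eq_mul, hr, totient_eq d hsq]
    have : ∏ p ∈ d.primeFactors, gg p = (∏ p ∈ d.primeFactors, (if S8 p then (2 : ℝ) else 0)) /
        ∏ p ∈ d.primeFactors, ((p : ℝ) - 1) := by
      rw [← prod_div_distrib]
      refine prod_congr rfl fun p _ => ?_
      rw [gg]
      split_ifs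
      · rfl
      · simp
    rw [this]
    ring
  rw [hsum, hprod, ← sum_sub_distrib]
  have hb : ∀ a ∈ R, |∑ n ∈ (Icc 1 (NX X)).filter (fun n : ℕ => (n : ZMod d) = (a : ZMod d)),
      wx X n - WX X / d.totient| ≤ E / d.totient := by
    intro a ha
    have ha' := (mem_filter.1 ha).2
    exact hCL X d a hX hd1 hdX ((ZMod.isUnit_iff_coprime a d).2 (hcop a ha'))
  have hcard : (R.card : ℝ) ≤ 2 ^ d.primeFactors.card := by
    rw [hr]
    calc ∏ p ∈ d.primeFactors, (if S8 p then (2 : ℝ) else 0) ≤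
        ∏ p ∈ d.primeFactors, (2 : ℝ) := by
          refine prod_le_prod (fun p _ => ?_) (fun p _ => ?_)
          · split_ifs <;> norm_num
          · split_ifs <;> norm_num
      _ = _ := by rw [prod_const]
  calc |∑ a ∈ R, (∑ n ∈ (Icc 1 (NX X)).filter (fun n : ℕ => (n : ZMod d) = (a : ZMod d)),
      wx X n - WX X / d.totient)| ≤
      ∑ a ∈ R, |∑ n ∈ (Icc 1 (NX X)).filter (fun n : ℕ => (n : ZMod d) = (a : ZMod d)),
      wx X n - WX X / d.totient| := abs_sum_le_sum_abs _ _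
    _ ≤ ∑ a ∈ R, E / d.totient := sum_le_sum hb
    _ = R.card * (E / d.totient) := by rw [sum_const, nsmul_eq_mul]
    _ ≤ 2 ^ d.primeFactors.card * (E / d.totient) := by
        gcongr
    _ = hd d * E := by rw [hd]; ring

end Pool.Agent.H17.BV.AD
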