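import Pool.Agent.H30.BV.Targets

/-!
Board `bv_modules`, row S1: the characters modulo `d` by their conductors.
-/

set_option autoImplicit false

open Finset Real

namespace Pool.Agent.H17.BV.S1

open Pool.Agent.H30.BV DirichletCharacter

/-- pairs (modulus, character) -/
abbrev SG := (q : ℕ) × DirichletCharacter ℂ q

open Classical in
/-- primitive characters modulo `q` -/
noncomputable def P (q : ℕ) : Finset (DirichletCharacter ℂ q) :=
  if h : {ψ : DirichletCharacter ℂ q | ψ.IsPrimitive}.Finite then h.toFinset else ∅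

theorem mem_P {q : ℕ} [NeZero q] (ψ : DirichletCharacter ℂ q) : ψ ∈ P q ↔ ψ.IsPrimitive := by
  have h : {ψ : DirichletCharacter ℂ q | ψ.IsPrimitive}.Finite := Set.toFinite _
  rw [P, dif_pos h]
  simp

theorem SP_eq (X : ℝ) (q : ℕ) [NeZero q] : SP X q = ∑ ψ ∈ P q, ‖TX X (cv ψ)‖ := by
  classical
  have : Fintype (DirichletCharacter ℂ q) := Fintype.ofFinite _
  rw [SP, finsum_eq_sum_of_fintype, ← sum_filter]
  refine sum_congr ?_ fun _ _ => rfl
  ext ψ
  simp [mem_P]

theorem inj_aux {d : ℕ} (a b : SG) (ha : a.1 ∣ d) (hb : b.1 ∣ d) (h : a = b) :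
    changeLevel ha a.2 = changeLevel hb b.2 := by
  subst h
  rfl

theorem pf_S1 (hPM : T_PM) : T_S1 := by
  intro X d hX hd hdX
  classical
  have : NeZero d := ⟨by omega⟩
  have : Fintype (DirichletCharacter ℂ d) := Fintype.ofFinite _
  set m : DirichletCharacter ℂ d → SG := fun χ => ⟨χ.conductor, χ.primitiveCharacter⟩ with hm
  set F : SG → ℝ := fun x => ‖TX X (cv x.2)‖ with hF
  have hinj : Function.Injective m := by
    intro χ χ' h
    have h1 := inj_aux (m χ) (m χ') (conductor_dvd_level χ) (conductor_dvd_level χ') h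
    have h2 : changeLevel (conductor_dvd_level χ) χ.primitiveCharacter = χ :=
      changeLevel_primitiveCharacter χ
    have h3 : changeLevel (conductor_dvd_level χ') χ'.primitiveCharacter = χ' :=
      changeLevel_primitiveCharacter χ'
    rw [← h2, ← h3]
    exact h1
  have hcard : (Fintype.card (DirichletCharacter ℂ d) : ℝ) ≤ d := by
    have h1 : Nat.card (DirichletCharacter ℂ d) = d.totient :=
      card_eq_totient_of_hasEnoughRootsOfUnity ℂ d
    rw [Nat.card_eq_fintype_card] at h1
    rw [h1]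
    exact_mod_cast Nat.totient_le d
  have hL : 0 ≤ 8 * Real.log X ^ 2 := by positivity
  have e1 : SC X d = ∑ χ ∈ (univ : Finset (DirichletCharacter ℂ d)).filter (fun χ => χ ≠ 1),
      ‖TX X (cv χ)‖ := by
    rw [SC, finsum_eq_sum_of_fintype, sum_filter]
    refine sum_congr rfl fun χ _ => ?_
    by_cases h : χ = 1
    · simp [h]
    · simp [h]
  have e2 : ∑ χ ∈ (univ : Finset (DirichletCharacter ℂ d)).filter (fun χ => χ ≠ 1),
      ‖TX X (cv χ)‖ ≤
      ∑ χ ∈ (univ : Finset (DirichletCharacter ℂ d)).filter (fun χ => χ ≠ 1),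
        (8 * Real.log X ^ 2 + F (m χ)) := by
    refine sum_le_sum fun χ _ => ?_
    have h1 := hPM X d χ hX hd hdX
    have h2 : ‖TX X (cv χ)‖ ≤ ‖TX X (cv χ) - TX X (cv χ.primitiveCharacter)‖ +
        ‖TX X (cv χ.primitiveCharacter)‖ := by
      simpa using norm_add_le (TX X (cv χ) - TX X (cv χ.primitiveCharacter))
        (TX X (cv χ.primitiveCharacter))
    exact h2.trans (by simp only [hF, hm]; gcongr)
  have e3 : ∑ χ ∈ (univ : Finset (DirichletCharacter ℂ d)).filter (fun χ => χ ≠ 1),
      (8 * Real.log X ^ 2) ≤ 8 * d * Real.log X ^ 2 := by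
    rw [sum_const, nsmul_eq_mul]
    have h1 : (((univ : Finset (DirichletCharacter ℂ d)).filter (fun χ => χ ≠ 1)).card : ℝ) ≤ d :=
      le_trans (by exact_mod_cast card_le_univ _) hcard
    calc _ ≤ (d : ℝ) * (8 * Real.log X ^ 2) := by gcongr
      _ = _ := by ring
  have e4 : ∑ χ ∈ (univ : Finset (DirichletCharacter ℂ d)).filter (fun χ => χ ≠ 1), F (m χ) ≤
      ∑ x ∈ (d.divisors.erase 1).sigma (fun q => P q), F x := by
    rw [← sum_image (f := F) (g := m) (fun a _ b _ h => hinj h)]
    refine sum_le_sum_of_subset_of_nonneg ?_ fun x _ _ => norm_nonneg _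
    intro x hx
    rw [mem_image] at hx
    obtain ⟨χ, hχ, rfl⟩ := hx
    rw [mem_filter] at hχ
    rw [mem_sigma]
    have hc0 : χ.conductor ≠ 0 := conductor_ne_zero χ
    have : NeZero χ.conductor := ⟨hc0⟩
    refine ⟨?_, ?_⟩
    · rw [mem_erase, Nat.mem_divisors]
      exact ⟨fun h => hχ.2 (eq_one_iff_conductor_eq_one.2 h), conductor_dvd_level χ, by omega⟩
    · exact (mem_P _).2 (primitiveCharacter_isPrimitive χ)
  have e5 : ∑ x ∈ (d.divisors.erase 1).sigma (fun q => P q), F x =
      ∑ q ∈ d.divisors.erase 1, SP X q := by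
    rw [sum_sigma]
    refine sum_congr rfl fun q hq => ?_
    have hq0 : q ≠ 0 := by
      have h1 := (mem_erase.1 hq).2
      exact (Nat.pos_of_mem_divisors h1).ne'
    have : NeZero q := ⟨hq0⟩
    rw [SP_eq]
  rw [e1]
  rw [sum_add_distrib] at e2
  linarith

end Pool.Agent.H17.BV.S1
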