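import Pool.Agent.H30.BV.Targets

/-!
Board `bv_modules`, row TE: telescoping of products.
-/

set_option autoImplicit false

open Finset

namespace Pool.Agent.H17.BV.TE

open Pool.Agent.H30.BV

theorem aux (x y : ℕ → ℝ) : ∀ t : ℕ, (∀ j ∈ range t, 0 ≤ x j ∧ x j ≤ y j) →
    ∏ j ∈ range t, y j - ∑ l ∈ range t, (y l - x l) * ∏ j ∈ (range t).erase l, y j ≤
      ∏ j ∈ range t, x j := by
  intro t
  induction t with
  | zero => intro _; simp
  | succ t ih =>
    intro h
    have h' : ∀ j ∈ range t, 0 ≤ x j ∧ x j ≤ y j := fun j hj =>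
      h j (mem_range.2 (Nat.lt_succ_of_lt (mem_range.1 hj)))
    have ht := h t (mem_range.2 (Nat.lt_succ_self t))
    have hI := ih h'
    have hle : ∏ j ∈ range t, x j ≤ ∏ j ∈ range t, y j :=
      prod_le_prod (fun j hj => (h' j hj).1) (fun j hj => (h' j hj).2)
    have hsum : ∑ l ∈ range (t + 1), (y l - x l) * ∏ j ∈ (range (t + 1)).erase l, y j =
        y t * ∑ l ∈ range t, (y l - x l) * ∏ j ∈ (range t).erase l, y j +
          (y t - x t) * ∏ j ∈ range t, y j := by
      rw [sum_range_succ]
      congr 1
      · rw [mul_sum]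
        refine sum_congr rfl fun l hl => ?_
        have hl' := mem_range.1 hl
        have he : (range (t + 1)).erase l = insert t ((range t).erase l) := by
          ext j
          simp only [mem_erase, mem_range, mem_insert]
          omega
        rw [he, prod_insert (by simp)]
        ring
      · have he : (range (t + 1)).erase t = range t := by
          ext j
          simp only [mem_erase, mem_range]
          omega
        rw [he]
    rw [hsum, prod_range_succ, prod_range_succ]
    have h1 : y t * (∏ j ∈ range t, y j - ∑ l ∈ range t, (y l - x l) *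
        ∏ j ∈ (range t).erase l, y j) ≤ y t * ∏ j ∈ range t, x j :=
      mul_le_mul_of_nonneg_left hI (ht.1.trans ht.2)
    have h2 : (y t - x t) * ∏ j ∈ range t, x j ≤ (y t - x t) * ∏ j ∈ range t, y j :=
      mul_le_mul_of_nonneg_left hle (sub_nonneg.2 ht.2)
    nlinarith

theorem pf_TE : T_TE := fun t x y h => aux x y t h

end Pool.Agent.H17.BV.TE
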